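import Pool.Agent.Results.MP_fbe9f6_co.RamseyClasses

/-!
# The chromatic distance between two graphs is at most two

All graphs are finite, with at least two vertices, and all containments are as induced subgraphs.
`F ≍ G` (`ChromaticallyRelated F G`) means that for every `l ≥ 2` some finite graph `W` has
`χ(W : -F) = χ(W : -G) = l`; the definitions are those of
`Pool.Agent.Results.MP_fbe9f6_co.BipartiteRelated`.

We prove that for any two graphs `F`, `G` with at least two vertices there is a graph `H` with
`F ≍ H ≍ G`; the graph `H` can be taken complete or edgeless.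
-/

set_option autoImplicit false

namespace Pool.Agent.Results.MP_37c966_co.DistanceTwo

open Pool.Agent.Results.MP_fbe9f6_co.BipartiteRelated

universe u v

/-- A noncomplete graph is related to every complete graph with more vertices. -/
theorem related_top {V : Type v} [Finite V] [Nontrivial V] (G : SimpleGraph V) (hG : G ≠ ⊤)
    (n : ℕ) (hn : Nat.card V < n) : ChromaticallyRelated G (⊤ : SimpleGraph (Fin n)) := by
  have h2 : 2 ≤ n := by
    have : 1 < Nat.card V := Finite.one_lt_card
    omega
  refine (Pool.Agent.Results.MP_fbe9f6_co.RamseyClasses.result.{v, v, v}.1 V G n h2).2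
    ⟨⟨fun _ => 0, ?_⟩, fun h => (hG h).elim⟩
  intro i
  refine ⟨fun f => ?_⟩
  have h1 : Nat.card (Fin n) ≤ Nat.card {w : V | (fun _ => (0 : Fin 2)) w = i} :=
    Nat.card_le_card_of_injective f f.injective
  have h3 : Nat.card {w : V | (fun _ => (0 : Fin 2)) w = i} ≤ Nat.card V :=
    Nat.card_le_card_of_injective _ Subtype.val_injective
  rw [Nat.card_fin] at h1
  omega

/-- A graph with an edge is related to every edgeless graph with more vertices. -/
theorem related_bot {V : Type v} [Finite V] [Nontrivial V] (G : SimpleGraph V) (hG : G ≠ ⊥)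
    (n : ℕ) (hn : Nat.card V < n) : ChromaticallyRelated G (⊥ : SimpleGraph (Fin n)) := by
  refine Pool.Agent.Y783.CR.related_compl ?_
  rw [compl_bot]
  exact related_top Gᶜ (fun h => hG (by rw [← compl_compl G, h, compl_top])) n hn

/-- Edgeless and complete graphs are related. -/
theorem related_bot_top (U : Type u) (V : Type v) [Finite U] [Finite V] [Nontrivial U]
    [Nontrivial V] : ChromaticallyRelated (⊥ : SimpleGraph U) (⊤ : SimpleGraph V) := by
  refine (Pool.Agent.Y783.CR.main (⊥ : SimpleGraph U) (⊤ : SimpleGraph V)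
    (Or.inr (Or.inl rfl))).2 ⟨⟨fun _ => 0, ?_⟩, ⟨fun _ => 0, ?_⟩⟩
  · intro i
    refine ⟨fun f => ?_⟩
    obtain ⟨x, y, hxy⟩ := exists_pair_ne V
    have h : ((⊥ : SimpleGraph U).induce {w | (fun _ => (0 : Fin 2)) w = i}).Adj (f x) (f y) :=
      f.map_adj_iff.2 hxy
    exact h
  · intro i
    refine ⟨fun f => ?_⟩
    obtain ⟨x, y, hxy⟩ := exists_pair_ne U
    have h : ((⊤ : SimpleGraph V).induce {w | (fun _ => (0 : Fin 2)) w = i}).Adj (f x) (f y) :=
      fun h => hxy (f.injective (Subtype.ext h))
    exact f.map_adj_iff.1 h

/-- A complete graph is related to the complete graph with the same number of vertices. -/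
theorem related_top_self (V : Type v) [Finite V] [Nontrivial V] :
    ChromaticallyRelated (⊤ : SimpleGraph V) (⊤ : SimpleGraph (Fin (Nat.card V))) := by
  classical
  have hV : 1 < Nat.card V := Finite.one_lt_card
  obtain ⟨x, y, hxy⟩ := exists_pair_ne V
  refine (Pool.Agent.Results.MP_fbe9f6_co.RamseyClasses.result.{v, v, v}.1 V ⊤ _ hV).2
    ⟨⟨fun v => if v = x then 0 else 1, ?_⟩, fun _ => by omega⟩
  intro i
  refine ⟨fun f => ?_⟩
  have h1 : Nat.card (Fin (Nat.card V)) ≤
      Nat.card {w : V | (fun v => if v = x then (0 : Fin 2) else 1) w = i} :=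
    Nat.card_le_card_of_injective f f.injective
  have h3 : Nat.card {w : V | (fun v => if v = x then (0 : Fin 2) else 1) w = i} < Nat.card V := by
    have hne : {w : V | (fun v => if v = x then (0 : Fin 2) else 1) w = i} ≠ Set.univ := by
      intro h
      have hx : x ∈ {w : V | (fun v => if v = x then (0 : Fin 2) else 1) w = i} :=
        h ▸ Set.mem_univ x
      have hy : y ∈ {w : V | (fun v => if v = x then (0 : Fin 2) else 1) w = i} :=
        h ▸ Set.mem_univ y
      simp only [Set.mem_ofPred_eq, if_true] at hx
      simp only [Set.mem_ofPred_eq, if_neg hxy.symm] at hy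
      rw [← hy] at hx
      exact absurd hx (by decide)
    rw [Nat.card_coe_set_eq, ← Set.ncard_univ V]
    exact Set.ncard_lt_ncard (Set.ssubset_univ_iff.2 hne)
  rw [Nat.card_fin] at h1
  omega

/-- An edgeless graph with at least two vertices is not complete. -/
theorem bot_ne_top' (U : Type u) [Nontrivial U] : (⊥ : SimpleGraph U) ≠ ⊤ := by
  intro h
  obtain ⟨x, y, hxy⟩ := exists_pair_ne U
  have h1 : (⊤ : SimpleGraph U).Adj x y := hxy
  rw [← h] at h1
  exact h1

/-- **The chromatic distance is at most two.** For any two finite graphs `F`, `G` with at least two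
vertices there is a finite graph `H` with at least two vertices, complete or edgeless, which is
chromatically related to both: `F ≍ H ≍ G`. -/
theorem result (U : Type u) (V : Type v) [Finite U] [Finite V] [Nontrivial U] [Nontrivial V]
    (F : SimpleGraph U) (G : SimpleGraph V) :
    ∃ (n : ℕ) (H : SimpleGraph (Fin n)), 2 ≤ n ∧ (H = ⊤ ∨ H = ⊥) ∧
      ChromaticallyRelated F H ∧ ChromaticallyRelated H G := by
  have hU : 1 < Nat.card U := Finite.one_lt_card
  have hV : 1 < Nat.card V := Finite.one_lt_card
  have hnU : Nontrivial (Fin (Nat.card U)) := Fin.nontrivial_iff_two_le.2 hU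
  have hnV : Nontrivial (Fin (Nat.card V)) := Fin.nontrivial_iff_two_le.2 hV
  by_cases hF : F = ⊥
  · subst hF
    by_cases hG : G = ⊤
    · subst hG
      exact ⟨Nat.card V, ⊤, hV, Or.inl rfl, related_bot_top U (Fin (Nat.card V)),
        Pool.Agent.Y783.CR.related_symm (related_top_self V)⟩
    · exact ⟨Nat.card U + Nat.card V, ⊤, by omega, Or.inl rfl,
        related_top _ (bot_ne_top' U) _ (by omega),
        Pool.Agent.Y783.CR.related_symm (related_top G hG _ (by omega))⟩
  · by_cases hG : G = ⊥
    · subst hG
      by_cases hF' : F = ⊤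
      · subst hF'
        exact ⟨Nat.card U, ⊤, hU, Or.inl rfl, related_top_self U,
          Pool.Agent.Y783.CR.related_symm (related_bot_top V (Fin (Nat.card U)))⟩
      · exact ⟨Nat.card U + Nat.card V, ⊤, by omega, Or.inl rfl,
          related_top _ hF' _ (by omega),
          Pool.Agent.Y783.CR.related_symm (related_top _ (bot_ne_top' V) _ (by omega))⟩
    · exact ⟨Nat.card U + Nat.card V, ⊥, by omega, Or.inr rfl,
        related_bot F hF _ (by omega),
        Pool.Agent.Y783.CR.related_symm (related_bot G hG _ (by omega))⟩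

end Pool.Agent.Results.MP_37c966_co.DistanceTwo
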